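import Pool.Agent.H6.LD.Stm

set_option autoImplicit false

open Filter Topology MeasureTheory
open Pool.Agent.H6.LD

namespace Pool.Agent.H93.LD

theorem ind_meas (w a : ℝ) : Measurable (ind w a) := by
  classical
  unfold ind
  refine Measurable.ite ?_ measurable_const measurable_const
  exact measurableSet_lt (measurable_fract.comp (measurable_id.div_const w)) measurable_const

theorem ind_bd (w a t : ℝ) : ‖ind w a t‖ ≤ 1 := by
  unfold ind; split_ifs <;> simp

theorem ind_per {w : ℝ} (hw : 0 < w) (a t : ℝ) : ind w a (t + w) = ind w a t := by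
  unfold ind
  have : (t + w) / w = t / w + 1 := by field_simp
  rw [this, Int.fract_add_one]

theorem ind_int {w a : ℝ} (hw : 0 < w) (h0 : 0 ≤ a) (h1 : a ≤ 1) :
    ∫ t in (0 : ℝ)..w, ind w a t = ((a * w : ℝ) : ℂ) := by
  have hfr : ∀ t, 0 ≤ t → t < w → Int.fract (t / w) = t / w := by
    intro t ht htw
    rw [Int.fract_eq_self]
    exact ⟨by positivity, (div_lt_one hw).mpr htw⟩
  have haw : a * w ≤ w := by nlinarith
  have haw0 : 0 ≤ a * w := by positivity
  have n1 : ∀ᵐ t : ℝ, t ≠ a * w := by rw [ae_iff]; simp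
  have n2 : ∀ᵐ t : ℝ, t ≠ w := by rw [ae_iff]; simp
  have e1 : ∀ᵐ t : ℝ, t ∈ Set.uIoc 0 (a * w) → ind w a t = 1 := by
    filter_upwards [n1] with t ht hm
    rw [Set.uIoc_of_le haw0] at hm
    have hlt : t < a * w := lt_of_le_of_ne hm.2 ht
    unfold ind
    rw [hfr t hm.1.le (by linarith), if_pos ((div_lt_iff₀ hw).mpr hlt)]
  have e2 : ∀ᵐ t : ℝ, t ∈ Set.uIoc (a * w) w → ind w a t = 0 := by
    filter_upwards [n2] with t ht hm
    rw [Set.uIoc_of_le haw] at hm
    have hlt : t < w := lt_of_le_of_ne hm.2 ht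
    unfold ind
    rw [hfr t (by linarith [hm.1]) hlt, if_neg]
    rw [not_lt, le_div_iff₀ hw]
    exact hm.1.le
  have hi : ∀ c d : ℝ, IntervalIntegrable (ind w a) volume c d := by
    intro c d
    refine (intervalIntegrable_const (c := (1 : ℝ))).mono_fun
      (ind_meas w a).aestronglyMeasurable ?_
    refine Eventually.of_forall fun t => ?_
    simpa using ind_bd w a t
  rw [← intervalIntegral.integral_add_adjacent_intervals (hi 0 (a * w)) (hi (a * w) w),
    intervalIntegral.integral_congr_ae e1, intervalIntegral.integral_congr_ae e2]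
  simp

theorem t_IND (es1 : S_ES1) (per : S_PER) (fou : S_FOU) : S_IND := by
  intro w a hw h0 h1
  obtain ⟨p1, p2⟩ := per w hw
  refine ⟨⟨ind_meas w a, ⟨1, ind_bd w a⟩, ?_⟩, ?_⟩
  · intro ε hε
    obtain ⟨q, hq, hqp, hqi⟩ := fou w a hw h0 h1 (ε * w / 2) (by positivity)
    obtain ⟨qc, ⟨C, hC⟩, -⟩ := es1 _ q hq
    refine ⟨q, hq, w, fun T hT => ?_⟩
    have h2 := p1 (fun t => ‖ind w a t - q t‖) ((ind_meas w a).sub qc.measurable).norm
      ⟨1 + C, fun t => by
        rw [abs_norm]
        exact (norm_sub_le _ _).trans (add_le_add (ind_bd w a t) (hC t))⟩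
      (fun t => norm_nonneg _) (fun t => by rw [ind_per hw, hqp]) T (hw.le.trans hT)
    refine h2.trans ?_
    have h3 : 0 ≤ T / w + 1 := by
      have : 0 ≤ T / w := div_nonneg (hw.le.trans hT) hw.le
      linarith
    have h4 : 1 ≤ T / w := (one_le_div hw).mpr hT
    calc (T / w + 1) * ∫ t in (0 : ℝ)..w, ‖ind w a t - q t‖ ≤ (T / w + 1) * (ε * w / 2) :=
          mul_le_mul_of_nonneg_left hqi h3
      _ ≤ (T / w + T / w) * (ε * w / 2) :=
          mul_le_mul_of_nonneg_right (by linarith) (by positivity)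
      _ = ε * T := by field_simp; ring
  · have h2 := p2 (ind w a) (ind_meas w a) ⟨1, ind_bd w a⟩ (fun t => ind_per hw a t)
    rw [ind_int hw h0 h1] at h2
    have h3 : ((1 / w : ℝ) : ℂ) * ((a * w : ℝ) : ℂ) = ((a : ℝ) : ℂ) := by
      rw [← Complex.ofReal_mul]
      congr 1
      field_simp
    rwa [h3] at h2

end Pool.Agent.H93.LD
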